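import Pool.Agent.FS.McOmega.Fin

/-! The `ω`-centre of a group with the minimal condition on centralizers. -/

set_option autoImplicit false

namespace Pool.Agent.FS.McOmega

open Subgroup
open scoped commutatorElement
open Pool.Agent.Lib.MP_3f2ebd_al

variable {G : Type*} [Group G]

theorem omega_of_quot (hG : Mc G) (a : G) {m : ℕ} (h : ∀ x : G, (ad x)^[m] a = 1)
    (hL : ∀ H : Subgroup (G ⧸ centralizer (normalClosure ({a} : Set G) : Set G)), H.FG →
      ∃ S : Subgroup H, S.FiniteIndex ∧ Group.IsSolvable S) :
    ∃ n, a ∈ Subgroup.upperCentralSeries G n := by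
  classical
  obtain ⟨h1, h2⟩ := closure_facts hG a h
  let π := QuotientGroup.mk' (centralizer (normalClosure ({a} : Set G) : Set G))
  obtain ⟨n, hn⟩ := local_global hG (N := normalClosure ({a} : Set G)) fun F => by
    obtain ⟨S, hS1, hS2⟩ := hL ((closure (F : Set G)).map π)
      ⟨F.image π, by rw [MonoidHom.map_closure, Finset.coe_image]⟩
    have hsurj := π.subgroupMap_surjective (closure (F : Set G))
    have hfi : (S.normalCore.comap (π.subgroupMap (closure (F : Set G)))).FiniteIndex :=
      ⟨by rw [index_comap_of_surjective _ hsurj]; exact FiniteIndex.index_ne_zero⟩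
    have hsol : Group.IsSolvable S.normalCore :=
      Group.isSolvable_of_isSolvable_injective (inclusion_injective S.normalCore_le)
    obtain ⟨d, hd⟩ : Sol (S.normalCore.map ((closure (F : Set G)).map π).subtype) :=
      sol_of_isSolvable (Group.isSolvable_of_surjective (f := (S.normalCore.equivMapOfInjective _
        (subtype_injective _)).toMonoidHom) (MulEquiv.surjective _))
    rw [sup_comm]
    refine na_of_finiteIndex hG h2 (S.normalCore.comap (π.subgroupMap (closure (F : Set G)))) ?_
    refine der_step hG le_normalizer_of_normal (fun x _ => h2 x (mem_top x)) d (na_of_cz ?_ h1)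
    refine le_trans ((Subgroup.map_eq_bot_iff (f := π) _).mp (le_bot_iff.mp ?_)) (QuotientGroup.ker_mk' _).le
    rw [map_der', ← hd]
    refine der_mono ?_ d
    rintro _ ⟨_, ⟨s, hs, rfl⟩, rfl⟩
    exact ⟨_, hs, rfl⟩
  exact ⟨n, zm_top (G := G) n ▸ hn (subset_normalClosure rfl)⟩

theorem quot_solvable {a : G} {n : ℕ} (h : a ∈ Subgroup.upperCentralSeries G n) :
    Group.IsSolvable (G ⧸ centralizer (normalClosure ({a} : Set G) : Set G)) := by
  have h1 : normalClosure ({a} : Set G) ≤ zm ⊤ ⊥ n := by
    rw [zm_top]
    exact normalClosure_le_normal (Set.singleton_subset_iff.mpr h)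
  have h2 : derivedSeries G n ≤ centralizer (normalClosure ({a} : Set G) : Set G) := by
    rw [← der_top]
    refine (der_le_lcs ⊤ n).trans (commutator_eq_bot_iff_le_centralizer.mp (le_bot_iff.mp ?_))
    rw [commutator_comm]
    refine (commutator_mono (h1.trans (zm_mono bot_le (nz_bot _) (j := 0 + n + 1)
      (by omega))) le_rfl).trans ?_
    exact comm_zm_lcs bot_le (nz_bot _) n 0
  refine ⟨n, le_bot_iff.mp ((derivedSeries_le_map_derivedSeries
    (QuotientGroup.mk'_surjective _) n).trans (le_of_eq ((Subgroup.map_eq_bot_iff _).mpr ?_)))⟩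
  rwa [QuotientGroup.ker_mk']

end Pool.Agent.FS.McOmega
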