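import Pool.Agent.FS.McOmega.Main

/-! Finite groups of unipotent automorphisms of abelian sections. -/

set_option autoImplicit false

namespace Pool.Agent.FS.McOmega

open Subgroup
open scoped commutatorElement
open Pool.Agent.Lib.MP_3f2ebd_al

lemma smul_kill {R : Type*} [Ring R] {x : R} {e : ℕ} (hn : IsNilpotent (x - 1)) (he : x ^ e = 1) :
    ∃ k : ℕ, e ^ k • (x - 1) = 0 := by
  have h1 : ∀ n : ℕ, ∃ w : R, Commute w (x - 1) ∧
      ∑ i ∈ Finset.range n, x ^ i = n + w * (x - 1) := by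
    intro n
    induction n with
    | zero => exact ⟨0, Commute.zero_left _, by simp⟩
    | succ n ih =>
      obtain ⟨w, hw, hs⟩ := ih
      refine ⟨n + x * w, ?_, ?_⟩
      · exact (Nat.cast_commute n _).add_left
          (((Commute.refl x).sub_right (Commute.one_right x)).mul_left hw)
      · rw [geom_sum_succ, hs, mul_add, ← (Nat.cast_commute n x).eq]
        push_cast
        noncomm_ring
  obtain ⟨w, hw, hs⟩ := h1 e
  have h2 : (e : R) * (x - 1) = (-w * (x - 1)) * (x - 1) := by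
    have := geom_sum_mul x e
    rw [hs, he, sub_self, add_mul] at this
    rw [neg_mul, neg_mul]
    exact eq_neg_of_add_eq_zero_left this
  have h3 : ∀ k : ℕ, e ^ k • (x - 1) = (-w * (x - 1)) ^ k * (x - 1) := by
    intro k
    induction k with
    | zero => simp
    | succ k ih =>
      rw [pow_succ', mul_smul, ih, ← mul_smul_comm, nsmul_eq_mul, h2, pow_succ]
      simp only [mul_assoc]
  obtain ⟨m, hm⟩ := hn
  exact ⟨m, by rw [h3, hw.neg_left.mul_pow, hm, mul_zero, zero_mul]⟩

lemma mul_zero_of_coprime {R : Type*} [Ring R] {x y : R} {e f : ℕ} (hx : IsNilpotent (x - 1))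
    (hy : IsNilpotent (y - 1)) (he : x ^ e = 1) (hf : y ^ f = 1) (h : e.Coprime f) :
    (x - 1) * (y - 1) = 0 := by
  obtain ⟨k, hk⟩ := smul_kill hx he
  obtain ⟨l, hl⟩ := smul_kill hy hf
  have h1 : e ^ k • ((x - 1) * (y - 1)) = 0 := by rw [← smul_mul_assoc, hk, zero_mul]
  have h2 : f ^ l • ((x - 1) * (y - 1)) = 0 := by rw [← mul_smul_comm, hl, mul_zero]
  have h3 := Nat.dvd_gcd (addOrderOf_dvd_of_nsmul_eq_zero h1) (addOrderOf_dvd_of_nsmul_eq_zero h2)
  rw [(Nat.Coprime.pow k l h).gcd_eq_one, Nat.dvd_one] at h3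
  exact AddMonoid.addOrderOf_eq_one_iff.mp h3

lemma nilpotent_of_coprime {Q : Type*} [Group Q] [Finite Q]
    (h : ∀ x y : Q, (orderOf x).Coprime (orderOf y) → x * y = y * x) : Group.IsNilpotent Q := by
  refine (Group.isNilpotent_of_finite_tfae.out 3 0).mp fun p hp P => ?_
  have hp' : Fact p.Prime := hp
  rw [← normalizer_eq_top_iff, ← index_eq_one]
  by_contra hne
  obtain ⟨q, hq, hqd⟩ := Nat.exists_prime_and_dvd hne
  have := Fact.mk hq
  by_cases hpq : q = p
  · subst hpq
    exact P.not_dvd_index (hqd.trans (index_dvd_of_le le_normalizer))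
  · obtain ⟨S⟩ : Nonempty (Sylow q Q) := inferInstance
    refine S.not_dvd_index (hqd.trans (index_dvd_of_le fun s hs => ?_))
    refine centralizer_le_normalizer _ (mem_centralizer_iff.mpr fun t ht => h t s ?_)
    obtain ⟨i, hi⟩ := (IsPGroup.iff_orderOf.mp P.isPGroup') ⟨t, ht⟩
    obtain ⟨j, hj⟩ := (IsPGroup.iff_orderOf.mp S.isPGroup') ⟨s, hs⟩
    rw [← orderOf_coe] at hi hj
    rw [hi, hj]
    exact Nat.Coprime.pow i j ((Nat.coprime_primes hp.out hq).mpr (Ne.symm hpq))

lemma section_zero {Γ L : Type*} [Group Γ] [Group L] (f : L →* Γ) (A : Subgroup Γ) [A.Normal]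
    (hA : ∀ a ∈ A, ∀ b ∈ A, a * b = b * a) (S : Subgroup L) [S.FiniteIndex]
    (hS : ∀ s ∈ S, ∀ a ∈ A, f s * a = a * f s)
    (hU : ∀ x : L, ∃ m : ℕ, ∀ y ∈ A, (ad (f x))^[m] y = 1) :
    ∃ d : ℕ, ∀ g ∈ derivedSeries L d, ∀ a ∈ A, f g * a = a * f g := by
  let : CommGroup A := { (inferInstance : Group A) with
    mul_comm := fun a b => Subtype.ext (hA a a.2 b b.2) }
  let φ : L →* MulAut A := (MulAut.conjNormal (H := A)).comp f
  have hφ : ∀ (g : L) (a : A), ((φ g a : A) : Γ) = f g * a * (f g)⁻¹ := fun g a => rfl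
  let σ : MulAut A →* AddMonoid.End (Additive A) :=
    { toFun := fun q => MonoidHom.toAdditive q.toMonoidHom
      map_one' := rfl
      map_mul' := fun _ _ => rfl }
  have hσ : ∀ (q : MulAut A) (a : A), Additive.toMul (σ q (Additive.ofMul a)) = q a := fun _ _ => rfl
  have hinj : Function.Injective σ := fun q q' hq => MulEquiv.ext fun a => by
    rw [← hσ, ← hσ, hq]
  have hker : S ≤ φ.ker := fun s hs => MulEquiv.ext fun a => Subtype.ext (by
    rw [hφ, hS s hs a a.2]; simp)
  have : φ.ker.FiniteIndex := finiteIndex_of_le hker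
  have : Finite φ.range := Finite.of_equiv _ (QuotientGroup.quotientKerEquivRange φ).toEquiv
  have hnil : ∀ g : L, IsNilpotent (σ (φ g) - 1) := by
    intro g
    obtain ⟨m, hm⟩ := hU g⁻¹
    have key : ∀ (k : ℕ) (a : Additive A), ((Additive.toMul (((σ (φ g) - 1) ^ k) a) : A) : Γ) =
        (ad (f g⁻¹))^[k] (Additive.toMul a : A) := by
      intro k
      induction k with
      | zero => intro a; rfl
      | succ k ih =>
        intro a
        rw [pow_succ', Function.iterate_succ_apply', ← ih]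
        generalize hb : ((σ (φ g) - 1) ^ k) a = b
        have : ((σ (φ g) - 1) * (σ (φ g) - 1) ^ k) a = σ (φ g) b - b := by rw [← hb]; rfl
        rw [this, toMul_sub, div_eq_inv_mul, ad, map_inv, inv_inv]
        rfl
    refine ⟨m, AddMonoidHom.ext fun a => ?_⟩
    have := key m a
    rw [hm _ (Additive.toMul a).2] at this
    exact Additive.toMul.injective (Subtype.ext this)
  have : Group.IsNilpotent φ.range := by
    refine nilpotent_of_coprime fun x y hxy => ?_
    obtain ⟨g, hg⟩ := x.2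
    obtain ⟨g', hg'⟩ := y.2
    have hx : σ x.1 ^ orderOf x = 1 := by
      rw [← map_pow, ← Subgroup.coe_pow, pow_orderOf_eq_one, Subgroup.coe_one, map_one]
    have hy : σ y.1 ^ orderOf y = 1 := by
      rw [← map_pow, ← Subgroup.coe_pow, pow_orderOf_eq_one, Subgroup.coe_one, map_one]
    have nx : IsNilpotent (σ x.1 - 1) := hg ▸ hnil g
    have ny : IsNilpotent (σ y.1 - 1) := hg' ▸ hnil g'
    have h1 := mul_zero_of_coprime nx ny hx hy hxy
    have h2 := mul_zero_of_coprime ny nx hy hx hxy.symm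
    refine Subtype.ext (hinj ?_)
    rw [Subgroup.coe_mul, Subgroup.coe_mul, map_mul, map_mul]
    have : σ x.1 * σ y.1 - σ y.1 * σ x.1 =
        (σ x.1 - 1) * (σ y.1 - 1) - (σ y.1 - 1) * (σ x.1 - 1) := by
      simp only [mul_sub, sub_mul, mul_one, one_mul]; abel
    rw [h1, h2, sub_self] at this
    exact sub_eq_zero.mp this
  obtain ⟨d, hd⟩ := (inferInstance : Group.IsSolvable φ.range).solvable
  refine ⟨d, fun g hg a ha => ?_⟩
  have h1 := map_derivedSeries_le_derivedSeries φ.rangeRestrict d (mem_map_of_mem _ hg)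
  rw [hd, mem_bot] at h1
  have h2 : φ g = 1 := congrArg Subtype.val h1
  have h3 := hφ g ⟨a, ha⟩
  rw [h2] at h3
  exact mul_inv_eq_iff_eq_mul.mp h3.symm

variable {G : Type*} [Group G]

lemma map_ad' {G' : Type*} [Group G'] (f : G →* G') (x y : G) (m : ℕ) :
    f ((ad x)^[m] y) = (ad (f x))^[m] (f y) := by
  induction m with
  | zero => rfl
  | succ m ih =>
    rw [Function.iterate_succ_apply', Function.iterate_succ_apply', ← ih]
    simp [ad]

lemma section_one {M H W Z : Subgroup G} (hH : H ≤ M) (hW : W ≤ M) (nZ : M ≤ nz Z) (nW : M ≤ nz W)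
    (hWW : ⁅W, W⁆ ≤ Z) (S : Subgroup H) [S.FiniteIndex] (hS : ⁅W, S.map H.subtype⁆ ≤ Z)
    (hU : Uni H W) : ∃ d : ℕ, ⁅W, der H d⁆ ≤ Z := by
  have hZn : (Z.subgroupOf M).Normal := ⟨fun z hz g => conj_mem_of_nz (H := Z) (nZ g.2) hz⟩
  have hWn : (W.subgroupOf M).Normal := ⟨fun z hz g => conj_mem_of_nz (H := W) (nW g.2) hz⟩
  let π := QuotientGroup.mk' (Z.subgroupOf M)
  have hπ : ∀ u v : M, π u * π v = π v * π u ↔ ⁅(u : G), (v : G)⁆ ∈ Z := by
    intro u v
    rw [← commutatorElement_eq_one_iff_mul_comm, ← map_commutatorElement, QuotientGroup.mk'_apply,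
      QuotientGroup.eq_one_iff]
    rfl
  have hAn : ((W.subgroupOf M).map π).Normal := hWn.map π (QuotientGroup.mk'_surjective _)
  obtain ⟨d, hd⟩ := section_zero (π.comp (inclusion hH)) ((W.subgroupOf M).map π)
    (by
      rintro _ ⟨u, hu, rfl⟩ _ ⟨v, hv, rfl⟩
      exact (hπ u v).mpr (hWW (commutator_mem_commutator hu hv))) S
    (by
      rintro s hs _ ⟨v, hv, rfl⟩
      exact (hπ _ v).mpr (comm_mem_comm (hS (commutator_mem_commutator hv ⟨s, hs, rfl⟩))))
    (by
      intro x
      obtain ⟨m, hm⟩ := hU x x.2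
      refine ⟨m, ?_⟩
      rintro _ ⟨v, hv, rfl⟩
      have h1 : (ad (inclusion hH x))^[m] v = 1 :=
        Subtype.ext ((map_ad' M.subtype (inclusion hH x) v m).trans (hm v hv))
      rw [MonoidHom.comp_apply, ← map_ad', h1, map_one])
  refine ⟨d, commutator_le.mpr fun w hw g hg => ?_⟩
  have h1 := map_der' (⊤ : Subgroup H) H.subtype d
  rw [der_top, ← MonoidHom.range_eq_map, range_subtype] at h1
  rw [← h1] at hg
  obtain ⟨g, hg, rfl⟩ := hg
  exact comm_mem_comm ((hπ (inclusion hH g) ⟨w, hW hw⟩).mp (hd g hg _ ⟨⟨w, hW hw⟩, hw, rfl⟩))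

lemma na_of_finiteIndex (hG : Mc G) {H N : Subgroup G} [N.Normal] (hU : Uni ⊤ N) (S : Subgroup H)
    [S.Normal] [S.FiniteIndex] (h : NA (S.map H.subtype ⊔ N) N) : NA (H ⊔ N) N := by
  set K := S.map H.subtype ⊔ N with hK
  have nN : ∀ T : Subgroup G, T ≤ nz N := fun _ => le_normalizer_of_normal
  have nS : H ≤ nz (S.map H.subtype) := by
    refine nz_of_comm_le (commutator_le.mpr ?_)
    rintro _ ⟨s, hs, rfl⟩ g hg
    refine ⟨⁅s, (⟨g, hg⟩ : H)⁆, ?_, rfl⟩
    exact commutator_le_left S ⊤ (commutator_mem_commutator hs (mem_top _))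
  have nK : H ⊔ N ≤ nz K := sup_le (nz_sup nS (nN _)) (le_sup_right.trans le_normalizer)
  have nY : ∀ i, H ⊔ N ≤ nz (N ⊓ zm K ⊥ i) := fun i => nz_inf (nN _) (nz_zm nK (nz_bot _) i)
  have hc : ∀ i, ⁅N ⊓ zm K ⊥ (i + 1), K⁆ ≤ N ⊓ zm K ⊥ i := fun i =>
    le_inf ((commutator_mono inf_le_left le_rfl).trans (comm_le_left_of_nz (nN _)))
      ((commutator_mono inf_le_right le_rfl).trans (comm_zm_succ K ⊥ i))
  have hanti : Antitone (der H) := antitone_nat_of_succ_le fun i => commutator_le_self _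
  have key : ∀ i : ℕ, ∃ d : ℕ, N ⊓ zm K ⊥ i ≤ zm (der H d ⊔ N) ⊥ i := by
    intro i
    induction i with
    | zero => exact ⟨0, inf_le_right⟩
    | succ i ih =>
      obtain ⟨d, hd⟩ := ih
      have hN : ⁅N ⊓ zm K ⊥ (i + 1), N⁆ ≤ N ⊓ zm K ⊥ i :=
        (commutator_mono le_rfl le_sup_right).trans (hc i)
      obtain ⟨d', hd'⟩ := section_one (M := H ⊔ N) le_sup_left (inf_le_left.trans le_sup_right)
        (nY i) (nY (i + 1)) ((commutator_mono le_rfl inf_le_left).trans hN) S
        ((commutator_mono le_rfl le_sup_left).trans (hc i))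
        (fun x _ => (hU x (mem_top x)).imp fun m hm y hy => hm y hy.1)
      refine ⟨max d d', ?_⟩
      set P := der H (max d d') ⊔ N with hP
      have h1 : N ⊓ zm K ⊥ i ≤ zm P ⊥ i :=
        (le_inf (inf_le_left.trans le_sup_right) hd).trans
          (zm_restrict (sup_le_sup_right (hanti (le_max_left d d')) N) (nz_bot P) inf_le_right i)
      have hn := self_nz_zm (nz_bot P) i
      refine le_zm_succ (nz_bot P) (inf_le_left.trans le_sup_right) ?_
      rw [commutator_comm]
      refine comm_sup_le (le_sup_left.trans hn) (le_sup_right.trans hn) ?_ ?_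
      · rw [commutator_comm]
        exact (commutator_mono le_rfl (hanti (le_max_right d d'))).trans (hd'.trans h1)
      · rw [commutator_comm]
        exact hN.trans h1
  obtain ⟨c, hc'⟩ := h
  obtain ⟨d, hd⟩ := key c
  exact der_step hG (nN _) (fun x _ => hU x (mem_top x)) d ⟨c, (le_inf le_rfl hc').trans hd⟩

theorem omega (hG : Mc G)
    (hL : ∀ F : Finset G, ∃ S : Subgroup (closure (F : Set G)), S.FiniteIndex ∧ Group.IsSolvable S)
    (a : G) {m : ℕ} (h : ∀ x : G, (ad x)^[m] a = 1) : ∃ n, a ∈ Subgroup.upperCentralSeries G n := by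
  obtain ⟨h1, h2⟩ := closure_facts hG a h
  obtain ⟨n, hn⟩ := local_global hG (N := normalClosure ({a} : Set G)) fun F => by
    obtain ⟨S, hS1, hS2⟩ := hL F
    rw [sup_comm]
    refine na_of_finiteIndex hG h2 S.normalCore (na_of_sol hG (sol_of_isSolvable ?_) h1 h2)
    have : Group.IsSolvable S.normalCore :=
      Group.isSolvable_of_isSolvable_injective (inclusion_injective S.normalCore_le)
    exact Group.isSolvable_of_surjective (f := (S.normalCore.equivMapOfInjective _
      (subtype_injective _)).toMonoidHom) (MulEquiv.surjective _)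
  exact ⟨n, zm_top (G := G) n ▸ hn (subset_normalClosure rfl)⟩

end Pool.Agent.FS.McOmega
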