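import Pool.Agent.FS.McOmega.Step

set_option autoImplicit false

namespace Pool.Agent.FS.McOmega

open Subgroup
open scoped commutatorElement
open Pool.Agent.Lib.MP_3f2ebd_al

variable {G : Type*} [Group G]

lemma zm_top (n : ℕ) : zm (⊤ : Subgroup G) ⊥ n = Subgroup.upperCentralSeries G n := by
  induction n with
  | zero => simp
  | succ n ih =>
    ext x
    rw [Subgroup.mem_upperCentralSeries_succ_iff, zm_succ, ih]
    refine ⟨fun h y => h.2.2 y (mem_top y), fun h => ⟨mem_top x, ?_, fun b _ => h b⟩⟩
    exact le_normalizer_of_normal (mem_top x)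

lemma der_top (n : ℕ) : der (⊤ : Subgroup G) n = derivedSeries G n := by
  induction n with
  | zero => rfl
  | succ n ih => rw [der, ih, derivedSeries_succ]

lemma map_der' {G' : Type*} [Group G'] (H : Subgroup G) (f : G →* G') (i : ℕ) :
    (der H i).map f = der (H.map f) i := by
  induction i with
  | zero => rfl
  | succ i ih => rw [der, der, Subgroup.map_commutator, ih]

lemma sol_of_isSolvable {H : Subgroup G} (h : Group.IsSolvable H) : Sol H := by
  obtain ⟨d, hd⟩ := h.solvable
  refine ⟨d, ?_⟩
  have := map_der' (⊤ : Subgroup H) H.subtype d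
  rw [der_top, hd, Subgroup.map_bot, ← MonoidHom.range_eq_map, range_subtype] at this
  exact this.symm

/-- The normal closure of a bounded right Engel element is nilpotent, and every element acts
unipotently on it. -/
lemma closure_facts (hG : Mc G) (a : G) {m : ℕ} (h : ∀ x : G, (ad x)^[m] a = 1) :
    Nilp (normalClosure ({a} : Set G)) ∧ Uni ⊤ (normalClosure ({a} : Set G)) := by
  set A : Set G := Group.conjugatesOfSet {a} with hA
  have hmem : ∀ x, x ∈ A ↔ ∃ g : G, g * a * g⁻¹ = x := by
    intro x
    rw [hA, Group.mem_conjugatesOfSet_iff]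
    simp [isConj_iff]
  have hN : normalClosure ({a} : Set G) = closure A := rfl
  have hnil : Nilp (closure A⁻¹) := by
    refine hG.nilp_closure (fun g e he => ?_) (fun e he => ?_)
    · rw [Set.mem_inv, hmem] at he ⊢
      obtain ⟨t, ht⟩ := he
      refine ⟨g * t, ?_⟩
      rw [show g * t * a * (g * t)⁻¹ = g * (t * a * t⁻¹) * g⁻¹ by group, ht]
      group
    · rw [Set.mem_inv, hmem] at he
      obtain ⟨t, ht⟩ := he
      refine ⟨m + 2, fun y _ => ?_⟩
      have := heineken (right_engel_conj h t) y
      rwa [ht, inv_inv] at this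
  rw [Subgroup.closure_inv] at hnil
  refine ⟨hnil, fun x _ => ?_⟩
  obtain ⟨c, hc⟩ := hnil
  have hT := lemmaT (x := x) (m := m) hN (le_normalizer_of_normal (mem_top x)) (fun b hb => by
    obtain ⟨t, rfl⟩ := (hmem b).mp hb
    exact right_engel_conj h t x) hc
  exact ⟨_, fun y hy => iterate_of_zm (mem_sup_left (mem_zpowers x)) _ y (hT (mem_sup_right hy))⟩

lemma na_of_sol (hG : Mc G) {S N : Subgroup G} [N.Normal] (hS : Sol S) (hN : Nilp N)
    (hU : Uni ⊤ N) : NA (S ⊔ N) N := by
  obtain ⟨d, hd⟩ := hS
  refine der_step hG le_normalizer_of_normal (fun x _ => hU x (mem_top x)) d ?_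
  rw [hd]
  exact na_of_cz bot_le hN

end Pool.Agent.FS.McOmega
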