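import Pool.Agent.Lib.MP_3f2ebd_al.Baer

/-! Normal subgroups on which a group with the minimal condition on centralizers acts locally
nilpotently. -/

set_option autoImplicit false

namespace Pool.Agent.FS.McOmega

open Subgroup
open scoped commutatorElement
open Pool.Agent.Lib.MP_3f2ebd_al

variable {G : Type*} [Group G]

/-- `L` acts nilpotently on `Y`. -/
def NA (L Y : Subgroup G) : Prop := ∃ c : ℕ, Y ≤ zm L ⊥ c

/-- Every element of `H` acts unipotently on `Y`. -/
def Uni (H Y : Subgroup G) : Prop := ∀ x ∈ H, ∃ m : ℕ, ∀ y ∈ Y, (ad x)^[m] y = 1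

lemma NA.mono {L P Y : Subgroup G} (h : NA L Y) (hP : P ≤ L) (hY : Y ≤ P) : NA P Y := by
  obtain ⟨c, hc⟩ := h
  exact ⟨c, (le_inf hY hc).trans (zm_restrict hP (nz_bot P) inf_le_right c)⟩

lemma iterate_of_zm {L : Subgroup G} {x : G} (hx : x ∈ L) (j : ℕ) :
    ∀ y ∈ zm L ⊥ j, (ad x)^[j] y = 1 := by
  induction j with
  | zero => intro y hy; exact mem_bot.mp hy
  | succ j ih =>
    intro y hy
    rw [Function.iterate_succ_apply]
    refine ih _ ?_
    have : ad x y = ⁅y⁻¹, x⁻¹⁆ := by simp only [commutatorElement_def, ad]; group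
    rw [this]
    exact comm_zm_succ L ⊥ j (commutator_mem_commutator (inv_mem hy) (inv_mem hx))

lemma one_step {K Y : Subgroup G} {x : G} {m : ℕ} (hYK : Y ≤ K) (hKY : K ≤ nz Y) (hxK : x ∈ nz K)
    (hxY : x ∈ nz Y) (hm : ∀ y ∈ Y, (ad x)^[m] y = 1) (h : NA K Y) : NA (zpowers x ⊔ K) Y := by
  set P := zpowers x ⊔ K with hP
  have hn : ∀ j, P ≤ nz (zm P ⊥ j) := self_nz_zm (nz_bot P)
  have hxP : x ∈ P := mem_sup_left (mem_zpowers x)
  have hKP : K ≤ P := le_sup_right
  have key : ∀ i : ℕ, ∃ n : ℕ, Y ⊓ zm K ⊥ i ≤ zm P ⊥ n := by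
    intro i
    induction i with
    | zero => exact ⟨0, inf_le_right⟩
    | succ i ih =>
      obtain ⟨n, hn'⟩ := ih
      have hxW : x ∈ nz (Y ⊓ zm K ⊥ (i + 1)) :=
        nz_inf (zpowers_le_nz hxY) (nz_zm (zpowers_le_nz hxK) (nz_bot _) _) (mem_zpowers x)
      have claim : ∀ j : ℕ, ∀ y ∈ Y ⊓ zm K ⊥ (i + 1), (ad x)^[j] y = 1 → y ∈ zm P ⊥ (n + j) := by
        intro j
        induction j with
        | zero => intro y _ hy; rw [show y = 1 from hy]; exact one_mem _
        | succ j ihj =>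
          intro y hy hy'
          rw [Function.iterate_succ_apply] at hy'
          have h1 := ihj _ (ad_mem hxW hy) hy'
          have hyP : y ∈ P := hKP (hYK hy.1)
          refine mem_zm_succ (nz_bot P) hyP fun l hl => comm_mem_comm ?_
          have hle : P ≤ cmod (zm P ⊥ (n + j)) {y} := by
            refine sup_le ((zpowers_le (G := G)).mpr ⟨hn _ hxP, ?_⟩) ?_
            · rintro b rfl
              have : ⁅x, b⁆ = (x * b) * (ad x b)⁻¹ * (x * b)⁻¹ := by
                simp only [commutatorElement_def, ad]; group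
              rw [this]
              exact conj_mem_of_nz (hn _ (mul_mem hxP hyP)) (inv_mem h1)
            · intro k hk
              refine ⟨hn _ (hKP hk), ?_⟩
              rintro b rfl
              refine comm_mem_comm (zm_mono bot_le (nz_bot P) (Nat.le_add_right n j) (hn' ⟨?_, ?_⟩))
              · exact comm_le_left_of_nz hKY (commutator_mem_commutator hy.1 hk)
              · exact comm_zm_succ K ⊥ i (commutator_mem_commutator hy.2 hk)
          exact (hle hl).2 y rfl
      exact ⟨n + m, fun y hy => claim m y hy (hm y hy.1)⟩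
  obtain ⟨c, hc⟩ := h
  obtain ⟨n, hn'⟩ := key c
  exact ⟨n, (le_inf le_rfl hc).trans hn'⟩

lemma fin_step {H K Y : Subgroup G} (hYK : Y ≤ K) (hKH : K ≤ H) (hK : ⁅H, H⁆ ≤ K) (nY : H ≤ nz Y)
    (hU : Uni H Y) (h : NA K Y) (F : Finset G) (hF : (F : Set G) ⊆ H) :
    NA (K ⊔ closure (F : Set G)) Y := by
  classical
  induction F using Finset.induction_on with
  | empty => simpa using h
  | insert a F _ ih =>
    rw [Finset.coe_insert, Set.insert_subset_iff] at hF
    have h1 := ih hF.2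
    have hle : K ⊔ closure (F : Set G) ≤ H := sup_le hKH ((closure_le _).mpr hF.2)
    have h2 : H ≤ nz (K ⊔ closure (F : Set G)) :=
      nz_of_comm_le ((commutator_mono hle le_rfl).trans (hK.trans le_sup_left))
    obtain ⟨m, hm⟩ := hU a hF.1
    refine (one_step (hYK.trans le_sup_left) (hle.trans nY) (h2 hF.1) (nY hF.1) hm h1).mono ?_
      (hYK.trans le_sup_left)
    refine sup_le (le_sup_of_le_right le_sup_left) ((closure_le _).mpr ?_)
    rw [Finset.coe_insert, Set.insert_subset_iff]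
    exact ⟨mem_sup_left (mem_zpowers a),
      fun y hy => mem_sup_right (mem_sup_right (subset_closure hy))⟩

lemma exists_detect (hG : Mc G) {H K : Subgroup G} (hKH : K ≤ H) (n : ℕ) :
    ∃ F : Finset G, (F : Set G) ⊆ H ∧ Detects H (K ⊔ closure (F : Set G)) n := by
  classical
  set 𝓢 : Set (Subgroup G) := {P | ∃ F : Finset G, (F : Set G) ⊆ H ∧ P = K ⊔ closure (F : Set G)}
  have hne : 𝓢.Nonempty := ⟨_, ∅, by simp, rfl⟩
  have hd : DirectedOn (· ≤ ·) 𝓢 := by
    rintro _ ⟨F₁, h1, rfl⟩ _ ⟨F₂, h2, rfl⟩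
    refine ⟨_, ⟨F₁ ∪ F₂, by rw [Finset.coe_union]; exact Set.union_subset h1 h2, rfl⟩, ?_, ?_⟩
    · exact sup_le_sup_left (Subgroup.closure_mono (by simp)) _
    · exact sup_le_sup_left (Subgroup.closure_mono (by simp)) _
  have hle : ∀ P ∈ 𝓢, P ≤ H := by
    rintro _ ⟨F, hF, rfl⟩
    exact sup_le hKH ((closure_le _).mpr hF)
  have hsup : sSup 𝓢 = H := by
    refine le_antisymm (sSup_le hle) fun e he => ?_
    exact le_sSup (s := 𝓢) ⟨{e}, by simpa using he, rfl⟩ (mem_sup_right (subset_closure (by simp)))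
  obtain ⟨P, hP, hPc⟩ := hG.exists_cz_lcs hne hd n
  rw [hsup] at hPc
  have hdet := detects_of_cz (hle P hP) n hPc
  obtain ⟨F, hF, rfl⟩ := hP
  exact ⟨F, hF, hdet⟩

/-- The Derakhshan-Wagner step for an action. -/
lemma act_step (hG : Mc G) {H K Y : Subgroup G} (hYK : Y ≤ K) (hKH : K ≤ H) (hK : ⁅H, H⁆ ≤ K)
    (nY : H ≤ nz Y) (hU : Uni H Y) (h : NA K Y) : NA H Y := by
  have nK : H ≤ nz K := nz_of_comm_le ((commutator_mono hKH le_rfl).trans hK)
  have hn : ∀ j, H ≤ nz (zm H ⊥ j) := self_nz_zm (nz_bot H)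
  have key : ∀ i : ℕ, ∃ n : ℕ, Y ⊓ zm K ⊥ i ≤ zm H ⊥ n := by
    intro i
    induction i with
    | zero => exact ⟨0, inf_le_right⟩
    | succ i ih =>
      obtain ⟨n, hn'⟩ := ih
      obtain ⟨F, hF, hdet⟩ := exists_detect hG hKH (n + 1)
      obtain ⟨s, hs⟩ := fin_step hYK hKH hK nY hU h F hF
      set P := K ⊔ closure (F : Set G) with hPF
      have hPH : P ≤ H := sup_le hKH ((closure_le _).mpr hF)
      set Z := Y ⊓ zm K ⊥ (i + 1) with hZ
      have hZH : Z ≤ H := inf_le_left.trans (hYK.trans hKH)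
      have nZ : H ≤ nz Z := nz_inf nY (nz_zm nK (nz_bot H) _)
      have claim : ∀ k : ℕ, ∀ W : Subgroup G, W ≤ Z → ⁅W, P⁆ ≤ zm H ⊥ (n + k) →
          W ≤ zm H ⊥ (n + k + 1) := by
        intro k
        induction k with
        | zero => intro W hW hWP; exact hdet n (by omega) W (hW.trans hZH) hWP
        | succ k ihk =>
          intro W hW hWP
          have hWH : W ≤ H := hW.trans hZH
          refine le_zm_succ (nz_bot H) hWH (ihk _ ?_ ?_)
          · exact (commutator_mono hW le_rfl).trans (comm_le_left_of_nz nZ)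
          · refine three (hWH.trans (hn _)) (hn _) (hPH.trans (hn _)) ?_ ?_
            · rw [commutator_comm]
              refine (commutator_mono hW ((commutator_mono le_rfl hPH).trans hK)).trans ?_
              refine (le_inf ?_ ?_).trans (hn'.trans (zm_mono bot_le (nz_bot H) (by omega)))
              · exact (commutator_mono inf_le_left hKH).trans (comm_le_left_of_nz nY)
              · exact (commutator_mono inf_le_right le_rfl).trans (comm_zm_succ K ⊥ i)
            · rw [commutator_comm P]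
              exact (commutator_mono hWP le_rfl).trans (comm_zm_succ H ⊥ (n + k))
      have claim2 : ∀ k : ℕ, Z ⊓ zm P ⊥ k ≤ zm H ⊥ (n + k) := by
        intro k
        induction k with
        | zero => exact inf_le_right.trans bot_le
        | succ k ihk =>
          refine claim k _ inf_le_left (le_trans (le_inf ?_ ?_) ihk)
          · exact (commutator_mono inf_le_left hPH).trans (comm_le_left_of_nz nZ)
          · exact (commutator_mono inf_le_right le_rfl).trans (comm_zm_succ P ⊥ k)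
      exact ⟨n + s, le_trans (le_inf le_rfl (inf_le_left.trans hs)) (claim2 s)⟩
  obtain ⟨c, hc⟩ := h
  obtain ⟨n, hn'⟩ := key c
  exact ⟨n, (le_inf le_rfl hc).trans hn'⟩

lemma der_step (hG : Mc G) {H Y : Subgroup G} (nY : H ≤ nz Y) (hU : Uni (H ⊔ Y) Y) (i : ℕ) :
    NA (der H i ⊔ Y) Y → NA (H ⊔ Y) Y := by
  induction i with
  | zero => exact id
  | succ i ih =>
    intro h
    have hL : der H i ⊔ Y ≤ H ⊔ Y := sup_le_sup_right (der_le H i) Y
    have nY' : H ⊔ Y ≤ nz Y := sup_le nY le_normalizer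
    have nD : der H i ≤ nz (der H (i + 1) ⊔ Y) :=
      (der_le H i).trans (nz_sup (nz_der le_normalizer _) nY)
    have hYD : Y ≤ nz (der H (i + 1) ⊔ Y) := le_sup_right.trans le_normalizer
    refine ih (act_step hG le_sup_right (sup_le_sup_right (commutator_le_self _) Y) ?_
      (hL.trans nY') (fun x hx => hU x (hL hx)) h)
    refine comm_sup_le nD hYD ?_ ((comm_le_left_of_nz (hL.trans nY')).trans le_sup_right)
    rw [commutator_comm]
    exact comm_sup_le nD hYD le_sup_left
      ((comm_le_left_of_nz ((der_le H i).trans nY)).trans le_sup_right)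

lemma na_of_cz {D Y : Subgroup G} (hD : D ≤ cz Y) (h : Nilp Y) : NA (D ⊔ Y) Y := by
  have key : ∀ i : ℕ, zm Y ⊥ i ≤ zm (D ⊔ Y) ⊥ i := by
    intro i
    induction i with
    | zero => exact le_rfl
    | succ i ih =>
      have hn := self_nz_zm (nz_bot (D ⊔ Y)) i
      refine le_zm_succ (nz_bot _) ((zm_le bot_le _).trans le_sup_right) ?_
      rw [commutator_comm]
      refine comm_sup_le (le_sup_left.trans hn) (le_sup_right.trans hn) ?_ ?_
      · refine (commutator_mono le_rfl (zm_le bot_le _)).trans ?_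
        rw [commutator_eq_bot_iff_le_centralizer.mpr hD]
        exact bot_le
      · rw [commutator_comm]
        exact (comm_zm_succ Y ⊥ i).trans ih
  obtain ⟨c, hc⟩ := h
  exact ⟨c, (le_zm_of_nilp hc).trans (key c)⟩

lemma der_le_lcs (H : Subgroup G) (i : ℕ) : der H i ≤ lcs H i := by
  induction i with
  | zero => exact le_rfl
  | succ i ih => exact commutator_mono ih (der_le H i)

/-- From finitely generated subgroups to the whole group. -/
theorem local_global (hG : Mc G) {N : Subgroup G} [hN : N.Normal]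
    (h : ∀ F : Finset G, NA (N ⊔ closure (F : Set G)) N) : NA ⊤ N := by
  have nN : (⊤ : Subgroup G) ≤ nz N := le_normalizer_of_normal
  set 𝓢 : Set (Subgroup G) := Set.range fun j : ℕ => N ⊓ zm ⊤ ⊥ j with h𝓢
  have hmono : ∀ {i j : ℕ}, i ≤ j → N ⊓ zm ⊤ ⊥ i ≤ N ⊓ zm (⊤ : Subgroup G) ⊥ j :=
    fun hij => inf_le_inf_left N (zm_mono bot_le (nz_bot _) hij)
  have hne : 𝓢.Nonempty := ⟨_, 0, rfl⟩
  have hd : DirectedOn (· ≤ ·) 𝓢 := by
    rintro _ ⟨i, rfl⟩ _ ⟨j, rfl⟩
    exact ⟨_, ⟨max i j, rfl⟩, hmono (le_max_left _ _), hmono (le_max_right _ _)⟩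
  set Y := sSup 𝓢 with hY
  have hYN : Y ≤ N := sSup_le (by rintro _ ⟨j, rfl⟩; exact inf_le_left)
  have nY : (⊤ : Subgroup G) ≤ nz Y := by
    have : Y.Normal := ⟨fun y hy g => by
      obtain ⟨_, ⟨j, rfl⟩, hj⟩ := (mem_sSup_of_directedOn hne hd).mp hy
      exact le_sSup (s := 𝓢) ⟨j, rfl⟩
        (conj_mem_of_nz (nz_inf nN (self_nz_zm (nz_bot _) j) (mem_top g)) hj)⟩
    exact le_normalizer_of_normal
  obtain ⟨_, ⟨j, rfl⟩, hj⟩ := hG.exists_cz_eq hne hd
  have hD : der ⊤ j ≤ cz Y := by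
    refine (der_le_lcs ⊤ j).trans (le_trans ?_ hj)
    refine commutator_eq_bot_iff_le_centralizer.mp (le_bot_iff.mp ?_)
    rw [commutator_comm]
    refine (commutator_mono (inf_le_right.trans (zm_mono bot_le (nz_bot _) (j := 0 + j + 1)
      (by omega))) le_rfl).trans ?_
    exact comm_zm_lcs bot_le (nz_bot _) j 0
  have hnil : Nilp N := by
    obtain ⟨c, hc⟩ := (h ∅).mono le_sup_left le_rfl
    exact ⟨c, nilp_of_le_zm hc⟩
  have hU : Uni (⊤ ⊔ Y) Y := by
    intro x _
    obtain ⟨c, hc⟩ := h {x}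
    exact ⟨c, fun y hy => iterate_of_zm (mem_sup_right (subset_closure (by simp))) c y
      (hc (hYN hy))⟩
  obtain ⟨n, hn⟩ := der_step hG nY hU j (na_of_cz hD (hnil.mono hYN))
  rw [top_sup_eq] at hn
  obtain ⟨F, -, hdet⟩ := exists_detect hG (le_top : N ≤ ⊤) (n + 1)
  obtain ⟨s, hs⟩ := h F
  set P := N ⊔ closure (F : Set G)
  have key : ∀ k : ℕ, N ⊓ zm P ⊥ k ≤ zm ⊤ ⊥ n := by
    intro k
    induction k with
    | zero => exact inf_le_right.trans bot_le
    | succ k ih =>
      have h1 : N ⊓ zm P ⊥ (k + 1) ≤ zm ⊤ ⊥ (n + 1) := by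
        refine hdet n (by omega) _ le_top (le_trans (le_inf ?_ ?_) ih)
        · exact (commutator_mono inf_le_left le_top).trans (comm_le_left_of_nz nN)
        · exact (commutator_mono inf_le_right le_rfl).trans (comm_zm_succ P ⊥ k)
      exact (le_inf inf_le_left h1).trans ((le_sSup (s := 𝓢) ⟨n + 1, rfl⟩).trans hn)
  exact ⟨n, (le_inf le_rfl hs).trans (key s)⟩

end Pool.Agent.FS.McOmega
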