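import Pool.Agent.Lib.MP_3f2ebd_al.Mc

/-! Wreath products over infinite groups of prime exponent with chain conditions on subgroups. -/

set_option autoImplicit false

namespace Pool.Agent.FS.McOmega

open Subgroup RegularWreathProduct
open scoped commutatorElement
open Pool.Agent.Lib.MP_3f2ebd_al

section
variable {D B : Type*} [CommGroup D] [Group B]

lemma comm_iff {d y : D ≀ᵣ B} (hd : d.right = 1) :
    y * d = d * y ↔ ∀ t, d.left (y.right⁻¹ * t) = d.left t := by
  constructor
  · intro h t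
    have := congrFun (congrArg RegularWreathProduct.left h) t
    simp only [mul_left, Pi.mul_apply, hd, inv_one, one_mul] at this
    rw [mul_comm] at this
    exact mul_right_cancel this
  · intro h
    ext t
    · simp only [mul_left, Pi.mul_apply, hd, inv_one, one_mul, h, mul_comm]
    · simp [hd]

lemma comm_iff' {d y : D ≀ᵣ B} (hd : d.right = 1) :
    y * d = d * y ↔ y.right ∈ (centralizer {d}).comap (inl : B →* D ≀ᵣ B) := by
  rw [mem_comap, mem_centralizer_singleton_iff, comm_iff hd, comm_iff hd]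
  rfl

theorem mc_wr [WellFoundedLT (Subgroup B)] [WellFoundedGT (Subgroup B)] : Mc (D ≀ᵣ B) := by
  classical
  intro X
  let π : D ≀ᵣ B →* B := rightHom
  obtain ⟨_, ⟨F₁, h1, rfl⟩, hmax⟩ := (wellFounded_gt (α := Subgroup B)).has_min
    {S | ∃ F : Finset (D ≀ᵣ B), (F : Set (D ≀ᵣ B)) ⊆ X ∧ S = closure (π '' F)} ⟨_, ∅, by simp, rfl⟩
  obtain ⟨_, ⟨F₂, h2, h12, rfl⟩, hmin⟩ := (wellFounded_lt (α := Subgroup B)).has_min
    {S | ∃ F : Finset (D ≀ᵣ B), (F : Set (D ≀ᵣ B)) ⊆ X ∧ F₁ ⊆ F ∧
      S = (centralizer (F : Set (D ≀ᵣ B))).map π} ⟨_, F₁, h1, le_rfl, rfl⟩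
  refine ⟨F₂, h2, le_antisymm (centralizer_le h2) fun c hc => mem_centralizer_iff.mpr fun x hx => ?_⟩
  have e1 : closure (π '' (insert x F₁ : Finset (D ≀ᵣ B))) = closure (π '' F₁) := by
    refine (eq_of_le_of_not_lt (Subgroup.closure_mono (Set.image_mono (by simp))) ?_).symm
    exact hmax _ ⟨insert x F₁, by simp [Set.insert_subset_iff, hx, h1], rfl⟩
  have hle : centralizer ((insert x F₂ : Finset (D ≀ᵣ B)) : Set (D ≀ᵣ B)) ≤
      centralizer (F₂ : Set (D ≀ᵣ B)) := centralizer_le (by simp)
  have e2 : (centralizer ((insert x F₂ : Finset (D ≀ᵣ B)) : Set (D ≀ᵣ B))).map π =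
      (centralizer (F₂ : Set (D ≀ᵣ B))).map π :=
    eq_of_le_of_not_lt (map_mono hle) (hmin _ ⟨insert x F₂, by simp [Set.insert_subset_iff, hx, h2],
      h12.trans (Finset.subset_insert _ _), rfl⟩)
  obtain ⟨c', hc', hcc⟩ : π c ∈ (centralizer ((insert x F₂ : Finset (D ≀ᵣ B)) : Set (D ≀ᵣ B))).map π :=
    e2 ▸ mem_map_of_mem π hc
  have hd : (c'⁻¹ * c).right = 1 := by
    change π (c'⁻¹ * c) = 1
    rw [map_mul, map_inv, hcc, inv_mul_cancel]
  have hdF : c'⁻¹ * c ∈ centralizer (F₂ : Set (D ≀ᵣ B)) := mul_mem (inv_mem (hle hc')) hc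
  have h3 : closure (π '' F₁) ≤ (centralizer {c'⁻¹ * c}).comap (inl : B →* D ≀ᵣ B) := by
    refine (closure_le _).mpr ?_
    rintro _ ⟨y, hy, rfl⟩
    exact (comm_iff' hd).mp (mem_centralizer_iff.mp hdF y (h12 hy))
  have h4 : x * (c'⁻¹ * c) = (c'⁻¹ * c) * x :=
    (comm_iff' hd).mpr (h3 (e1 ▸ subset_closure ⟨x, by simp, rfl⟩))
  have h5 : x * c' = c' * x := mem_centralizer_iff.mp hc' x (by simp)
  calc x * c = (x * c') * (c'⁻¹ * c) := by group
    _ = c' * (x * (c'⁻¹ * c)) := by rw [h5, mul_assoc]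
    _ = c * x := by rw [h4]; group

lemma not_upper [Infinite B] (n : ℕ) : ∀ a ∈ Subgroup.upperCentralSeries (D ≀ᵣ B) n, a.right = 1 →
    (Function.mulSupport a.left).Finite → a = 1 := by
  induction n with
  | zero => intro a ha _ _; simpa using ha
  | succ n ih =>
    intro a ha h1 h2
    have h3 : ∀ b t : B, a.left (b⁻¹ * t) = a.left t := by
      intro b
      refine (comm_iff (y := inl b) h1).mp (Eq.symm ?_)
      refine commutatorElement_eq_one_iff_mul_comm.mp
        (ih _ (Subgroup.mem_upperCentralSeries_succ_iff.mp ha _) ?_ ?_)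
      · simp [commutatorElement_def, h1]
      · refine (h2.union (h2.preimage (mul_right_injective b⁻¹).injOn)).subset fun t ht => ?_
        by_contra hc
        simp only [Set.mem_union, Set.mem_preimage, Function.mem_mulSupport, not_or, not_not] at hc
        apply ht
        simp [commutatorElement_def, h1, hc.1, hc.2]
    obtain ⟨s, hs⟩ := h2.exists_notMem
    ext t
    · have := h3 (t * s⁻¹) t
      simp only [mul_inv_rev, inv_inv, inv_mul_cancel_right] at this
      rw [← this]
      simpa using hs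
    · exact h1

end

lemma engel_wr {B : Type*} [Group B] {p : ℕ} [Fact p.Prime] (hB : ∀ b : B, b ^ p = 1)
    (a x : Multiplicative (ZMod p) ≀ᵣ B) (ha : a.right = 1) : (ad x)^[p] a = 1 := by
  let T : Module.End (ZMod p) (B → ZMod p) := LinearMap.funLeft (ZMod p) (ZMod p) (x.right * ·)
  have hT : ∀ (k : ℕ) (f : B → ZMod p) (t : B), (T ^ k) f t = f (x.right ^ k * t) := by
    intro k
    induction k with
    | zero => intro f t; simp
    | succ k ih =>
      intro f t
      rw [pow_succ', Module.End.mul_apply]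
      change (T ^ k) f (x.right * t) = _
      rw [ih, pow_succ, mul_assoc]
  have : CharP (Module.End (ZMod p) (B → ZMod p)) p :=
    charP_of_injective_algebraMap (algebraMap (ZMod p) _).injective p
  have hz : (T - 1) ^ p = 0 := by
    rw [sub_pow_char_of_commute p (Commute.one_right T), one_pow, sub_eq_zero]
    ext f t
    simp [hT, hB]
  have key : ∀ k : ℕ, ((ad x)^[k] a).right = 1 ∧ ∀ t, Multiplicative.toAdd (((ad x)^[k] a).left t) =
      ((T - 1) ^ k) (fun s => Multiplicative.toAdd (a.left s)) t := by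
    intro k
    induction k with
    | zero => exact ⟨ha, fun _ => rfl⟩
    | succ k ih =>
      rw [Function.iterate_succ_apply', pow_succ']
      refine ⟨by simp [ad, ih.1], fun t => ?_⟩
      rw [Module.End.mul_apply, LinearMap.sub_apply, Pi.sub_apply, Module.End.one_apply, ← ih.2]
      change _ = ((T - 1) ^ k) _ (x.right * t) - _
      rw [← ih.2]
      simp [ad, ih.1]
      abel
  ext t
  · have := (key p).2 t
    rw [hz] at this
    exact this
  · exact (key p).1

end Pool.Agent.FS.McOmega
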